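import Mathlib

/-! Diameter-maximal regular graphs: definitions and general tools. -/

namespace Pool.Agent.Q260.DM

open Finset

open Classical in
/-- The algebraic connectivity: the second smallest eigenvalue (counted with multiplicity) of the
Laplacian matrix. -/
noncomputable def AC {V : Type} [Fintype V] (G : SimpleGraph V) : ℝ :=
  ((G.lapMatrix ℝ).charpoly.roots.sort (· ≤ ·)).getD 1 0

/-- `θ` solves the equation of Friedman's bound for degree `d` and diameter `D`, both sides being
defined. Here `K = D / 2` if `D` is even, `K = (D + 1) / 2` if `D` is odd. -/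
def IsSol (d D : ℕ) (θ : ℝ) : Prop :=
  (Even D ∧ Real.cos ((D / 2 : ℕ) * θ) ≠ 0 ∧ Real.cos θ ≠ 0 ∧
    Real.tan ((D / 2 : ℕ) * θ) = -((d : ℝ) / (d - 2)) * Real.tan θ) ∨
  (Odd D ∧ Real.cos (((D + 1) / 2 : ℕ) * θ) ≠ 0 ∧
    √((d : ℝ) - 1) * (d - 2 * Real.cos θ ^ 2) + (d - 2) * Real.cos θ ≠ 0 ∧
    Real.tan (((D + 1) / 2 : ℕ) * θ) =
      -((2 * √((d : ℝ) - 1) * Real.cos θ + d) * Real.sin θ) /
        (√((d : ℝ) - 1) * (d - 2 * Real.cos θ ^ 2) + (d - 2) * Real.cos θ))

/-- `G` is a connected `d`-regular graph of diameter `D` whose algebraic connectivity is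
`B(d, D) = d - 2 √(d - 1) cos θ`, with `θ` the smallest positive solution. -/
def DiameterMaximal {V : Type} [Fintype V] (d D : ℕ) (G : SimpleGraph V) : Prop :=
  G.Connected ∧ (∀ v, (G.neighborSet v).ncard = d) ∧ G.diam = D ∧
    ∃ θ : ℝ, IsLeast {t : ℝ | 0 < t ∧ IsSol d D t} θ ∧
      AC G = d - 2 * √((d : ℝ) - 1) * Real.cos θ

section spectral

variable {ι : Type} [Fintype ι] [DecidableEq ι]

lemma root_iff (M : Matrix ι ι ℝ) (μ : ℝ) :
    μ ∈ M.charpoly.roots ↔ ∃ v : ι → ℝ, v ≠ 0 ∧ M.mulVec v = μ • v := by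
  rw [Polynomial.mem_roots (Matrix.charpoly_monic M).ne_zero, Polynomial.IsRoot,
    Matrix.eval_charpoly, ← Matrix.exists_mulVec_eq_zero_iff]
  constructor
  · rintro ⟨v, hv, h⟩
    refine ⟨v, hv, ?_⟩
    rw [Matrix.sub_mulVec, sub_eq_zero] at h
    rw [← h]
    ext i
    simp [Matrix.scalar_apply, Matrix.mulVec_diagonal]
  · rintro ⟨v, hv, h⟩
    refine ⟨v, hv, ?_⟩
    rw [Matrix.sub_mulVec, sub_eq_zero, h]
    ext i
    simp [Matrix.scalar_apply, Matrix.mulVec_diagonal]

lemma second_root (M : Matrix ι ι ℝ) (hM : M.IsHermitian) (u : ι → ℝ) (hu : u ≠ 0)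
    (h0 : M.mulVec u = 0) (hker : ∀ v, M.mulVec v = 0 → ∃ c : ℝ, v = c • u) (β : ℝ) (hβ : 0 < β)
    (hmin : ∀ (v : ι → ℝ) (x : ℝ), v ≠ 0 → M.mulVec v = x • v → x = 0 ∨ β ≤ x)
    (w : ι → ℝ) (hw : w ≠ 0) (hwβ : M.mulVec w = β • w) :
    (M.charpoly.roots.sort (· ≤ ·)).getD 1 0 = β := by
  have hroots : M.charpoly.roots = Multiset.map hM.eigenvalues Finset.univ.val := by
    rw [hM.roots_charpoly_eq_eigenvalues]
    rfl
  have h0r : (0 : ℝ) ∈ M.charpoly.roots := (root_iff M 0).2 ⟨u, hu, by rw [h0]; simp⟩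
  have hβr : β ∈ M.charpoly.roots := (root_iff M β).2 ⟨w, hw, hwβ⟩
  rw [hroots, Multiset.mem_map] at h0r
  obtain ⟨i0, -, hi0⟩ := h0r
  have hsplit : M.charpoly.roots = 0 ::ₘ Multiset.map hM.eigenvalues (Finset.univ.erase i0).val := by
    rw [hroots, ← hi0, ← Multiset.map_cons]
    congr 1
    rw [Finset.erase_val, Multiset.cons_erase (Finset.mem_univ_val i0)]
  set t := Multiset.map hM.eigenvalues (Finset.univ.erase i0).val with ht
  have hne : ∀ i, (⇑(hM.eigenvectorBasis i) : ι → ℝ) ≠ 0 := by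
    intro i h
    have h1 := hM.eigenvectorBasis.orthonormal.1 i
    have h2 : hM.eigenvectorBasis i = 0 := by
      ext j
      exact congrFun h j
    rw [h2] at h1
    simp at h1
  have htβ : ∀ x ∈ t, β ≤ x := by
    intro x hx
    rw [ht, Multiset.mem_map] at hx
    obtain ⟨j, hj, rfl⟩ := hx
    have hji : j ≠ i0 := by
      have : j ∈ Finset.univ.erase i0 := hj
      exact (Finset.mem_erase.1 this).1
    have hev := hM.mulVec_eigenvectorBasis j
    rcases hmin _ _ (hne j) hev with h | h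
    · exfalso
      have hev0 := hM.mulVec_eigenvectorBasis i0
      rw [hi0, zero_smul] at hev0
      rw [h, zero_smul] at hev
      obtain ⟨c, hc⟩ := hker _ hev
      obtain ⟨c', hc'⟩ := hker _ hev0
      have hin : (inner ℝ (hM.eigenvectorBasis j) (hM.eigenvectorBasis i0) : ℝ) = 0 :=
        hM.eigenvectorBasis.orthonormal.2 hji
      have hin2 : (inner ℝ (hM.eigenvectorBasis j) (hM.eigenvectorBasis i0) : ℝ)
          = ∑ k, (hM.eigenvectorBasis j) k * (hM.eigenvectorBasis i0) k := by
        rw [PiLp.inner_apply]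
        apply Finset.sum_congr rfl
        intro k _
        simp [mul_comm]
      rw [hin2] at hin
      have hc0 : c ≠ 0 := by
        rintro rfl
        exact hne j (by rw [hc]; simp)
      have hc0' : c' ≠ 0 := by
        rintro rfl
        exact hne i0 (by rw [hc']; simp)
      have hs : ∑ k, (hM.eigenvectorBasis j) k * (hM.eigenvectorBasis i0) k
          = c * c' * ∑ k, u k ^ 2 := by
        rw [Finset.mul_sum]
        apply Finset.sum_congr rfl
        intro k _
        have e1 : (hM.eigenvectorBasis j) k = c * u k := congrFun hc k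
        have e2 : (hM.eigenvectorBasis i0) k = c' * u k := congrFun hc' k
        rw [e1, e2]
        ring
      rw [hs] at hin
      have hpos : 0 < ∑ k, u k ^ 2 := by
        obtain ⟨k, hk⟩ : ∃ k, u k ≠ 0 := by
          by_contra hcon
          push Not at hcon
          exact hu (funext hcon)
        exact lt_of_lt_of_le (by positivity)
          (Finset.single_le_sum (f := fun k => u k ^ 2) (fun _ _ => sq_nonneg _)
            (Finset.mem_univ k))
      rcases mul_eq_zero.1 hin with h3 | h3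
      · rcases mul_eq_zero.1 h3 with h4 | h4
        · exact hc0 h4
        · exact hc0' h4
      · exact hpos.ne' h3
    · exact h
  have hβt : β ∈ t := by
    rw [hsplit, Multiset.mem_cons] at hβr
    rcases hβr with h | h
    · exact absurd h hβ.ne'
    · exact h
  rw [hsplit, Multiset.sort_cons 0 t (· ≤ ·) (fun b hb => hβ.le.trans (htβ b hb))]
  simp only [List.getD_cons_succ]
  have hm : β ∈ t.sort (· ≤ ·) := by rw [Multiset.mem_sort]; exact hβt
  have hp : (t.sort (· ≤ ·)).Pairwise (· ≤ ·) := Multiset.pairwise_sort _ _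
  rcases hs : t.sort (· ≤ ·) with _ | ⟨c, l⟩
  · rw [hs] at hm
    simp at hm
  · simp only [List.getD_cons_zero]
    apply le_antisymm
    · rw [hs] at hm hp
      rcases List.mem_cons.1 hm with h | h
      · exact h.ge
      · exact (List.pairwise_cons.1 hp).1 β h
    · apply htβ
      rw [← Multiset.mem_sort (r := (· ≤ ·)), hs]
      exact List.mem_cons_self

end spectral

section graph

variable {n : ℕ}

/-- The graph on `Fin n` with a given symmetric irreflexive boolean adjacency. -/
def ofBool (a : Fin n → Fin n → Bool) (hs : ∀ i j, a i j = a j i) (hi : ∀ i, a i i = false) :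
    SimpleGraph (Fin n) where
  Adj i j := a i j = true
  symm := ⟨fun i j h => by rw [hs j i]; exact h⟩
  loopless := ⟨fun i h => by
    rw [hi i] at h
    exact Bool.false_ne_true h⟩

lemma lap_apply {V : Type} [Fintype V] [DecidableEq V] (G : SimpleGraph V) [DecidableRel G.Adj]
    (v : V → ℝ) (i : V) :
    (G.lapMatrix ℝ).mulVec v i
      = (∑ j, if G.Adj i j then (1 : ℝ) else 0) * v i - ∑ j, if G.Adj i j then v j else 0 := by
  rw [SimpleGraph.lapMatrix_mulVec_apply, SimpleGraph.degree_eq_sum_if_adj]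
  congr 1
  rw [← Finset.sum_filter]
  apply Finset.sum_congr _ (fun _ _ => rfl)
  ext j
  simp

lemma AC_aux {V : Type} [Fintype V] [Nonempty V] [DecidableEq V] (G : SimpleGraph V)
    [DecidableRel G.Adj] (d : ℝ) (hreg : ∀ i, (∑ j, if G.Adj i j then (1 : ℝ) else 0) = d)
    (hconn : G.Connected) (β : ℝ) (hβ : 0 < β)
    (hmin : ∀ (v : V → ℝ) (x : ℝ), v ≠ 0 →
      (∀ i, (∑ j, if G.Adj i j then v j else 0) = x * v i) → x = d ∨ x ≤ d - β)
    (w : V → ℝ) (hw : w ≠ 0) (hwβ : ∀ i, (∑ j, if G.Adj i j then w j else 0) = (d - β) * w i) :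
    ((G.lapMatrix ℝ).charpoly.roots.sort (· ≤ ·)).getD 1 0 = β := by
  have hlap : ∀ (v : V → ℝ) i, (G.lapMatrix ℝ).mulVec v i
      = d * v i - ∑ j, if G.Adj i j then v j else 0 := by
    intro v i
    rw [lap_apply, hreg]
  obtain ⟨v0⟩ := (inferInstance : Nonempty V)
  refine second_root (G.lapMatrix ℝ) (G.isHermitian_lapMatrix ℝ) (fun _ => 1)
    (fun h => one_ne_zero (congrFun h v0)) (G.lapMatrix_mulVec_const_eq_zero) ?_ β hβ ?_ w hw ?_
  · intro v hv
    rw [SimpleGraph.lapMatrix_mulVec_eq_zero_iff_forall_reachable] at hv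
    refine ⟨v v0, ?_⟩
    ext i
    simp only [Pi.smul_apply, smul_eq_mul, mul_one]
    exact hv _ _ (hconn.preconnected _ _)
  · intro v x hv h
    have h1 : ∀ i, (∑ j, if G.Adj i j then v j else 0) = (d - x) * v i := by
      intro i
      have := congrFun h i
      rw [hlap, Pi.smul_apply, smul_eq_mul] at this
      linarith
    rcases hmin v (d - x) hv h1 with h2 | h2
    · left
      linarith
    · right
      linarith
  · ext i
    rw [hlap, hwβ, Pi.smul_apply, smul_eq_mul]
    ring

lemma AC_inst {V : Type} [Fintype V] (G : SimpleGraph V) (i1 : DecidableEq V)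
    (i2 : DecidableRel G.Adj) :
    AC G = ((G.lapMatrix ℝ).charpoly.roots.sort (· ≤ ·)).getD 1 0 := by
  have h1 : i1 = (fun a b => Classical.propDecidable (a = b)) := Subsingleton.elim _ _
  have h2 : i2 = (fun a b => Classical.propDecidable (G.Adj a b)) := Subsingleton.elim _ _
  subst h1
  subst h2
  rfl

theorem AC_of (a : Fin n → Fin n → Bool) (hs : ∀ i j, a i j = a j i) (hi : ∀ i, a i i = false)
    (hn : 0 < n) (d : ℕ) (hreg : ∀ i, (∑ j, if a i j then 1 else 0) = d)
    (hconn : (ofBool a hs hi).Connected) (β : ℝ) (hβ : 0 < β)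
    (hmin : ∀ (v : Fin n → ℝ) (x : ℝ), v ≠ 0 →
      (∀ i, (∑ j, if a i j then v j else 0) = x * v i) → x = d ∨ x ≤ d - β)
    (w : Fin n → ℝ) (hw : w ≠ 0) (hwβ : ∀ i, (∑ j, if a i j then w j else 0) = (d - β) * w i) :
    AC (ofBool a hs hi) = β := by
  have hadj : ∀ i j, (ofBool a hs hi).Adj i j ↔ a i j = true := fun i j => Iff.rfl
  have : Nonempty (Fin n) := ⟨⟨0, hn⟩⟩
  have hA : ∀ (inst : DecidableRel (ofBool a hs hi).Adj) (v : Fin n → ℝ) i,
      (∑ j, @ite _ ((ofBool a hs hi).Adj i j) (inst i j) (v j) 0)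
      = ∑ j, if a i j then v j else 0 := by
    intro inst v i
    apply Finset.sum_congr rfl
    intro j _
    by_cases h : a i j = true
    · rw [if_pos ((hadj i j).2 h), if_pos h]
    · rw [if_neg (fun h' => h ((hadj i j).1 h')), if_neg h]
  rw [AC_inst (ofBool a hs hi) inferInstance (Classical.decRel _)]
  refine @AC_aux (Fin n) _ this _ (ofBool a hs hi) (Classical.decRel _) (d : ℝ) ?_ hconn β hβ ?_
    w hw ?_
  · intro i
    rw [hA _ (fun _ => 1) i, ← hreg i]
    rw [Nat.cast_sum]
    apply Finset.sum_congr rfl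
    intro j _
    by_cases h : a i j = true
    · simp only [if_pos h, Nat.cast_one]
    · simp only [if_neg h, Nat.cast_zero]
  · intro v x hv h
    apply hmin v x hv
    intro i
    rw [← h i, hA]
  · intro i
    rw [← hwβ i, hA]

/-- One step of breadth first search on bit masks. -/
def step (m : Fin n → ℕ) (s : ℕ) : ℕ :=
  (List.finRange n).foldl (fun acc (v : Fin n) => if s.testBit (v : ℕ) then acc ||| m v else acc) s

lemma foldl_testBit (m : Fin n → ℕ) (s : ℕ) (l : List (Fin n)) (acc : ℕ) (w : ℕ) :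
    (l.foldl (fun acc (v : Fin n) => if s.testBit (v : ℕ) then acc ||| m v else acc) acc).testBit w = true ↔
      acc.testBit w = true ∨ ∃ v ∈ l, s.testBit (v : ℕ) = true ∧ (m v).testBit w = true := by
  induction l generalizing acc with
  | nil => simp
  | cons v l ih =>
    rw [List.foldl_cons, ih]
    by_cases h : s.testBit v = true
    · rw [if_pos h, Nat.testBit_or]
      simp only [Bool.or_eq_true, List.mem_cons]
      constructor
      · rintro ((h1 | h1) | ⟨x, hx, h2⟩)
        · exact Or.inl h1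
        · exact Or.inr ⟨v, Or.inl rfl, h, h1⟩
        · exact Or.inr ⟨x, Or.inr hx, h2⟩
      · rintro (h1 | ⟨x, rfl | hx, h2⟩)
        · exact Or.inl (Or.inl h1)
        · exact Or.inl (Or.inr h2.2)
        · exact Or.inr ⟨x, hx, h2⟩
    · rw [if_neg h]
      simp only [List.mem_cons]
      constructor
      · rintro (h1 | ⟨x, hx, h2⟩)
        · exact Or.inl h1
        · exact Or.inr ⟨x, Or.inr hx, h2⟩
      · rintro (h1 | ⟨x, rfl | hx, h2⟩)
        · exact Or.inl h1
        · exact absurd h2.1 h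
        · exact Or.inr ⟨x, hx, h2⟩

lemma step_testBit (m : Fin n → ℕ) (s : ℕ) (w : ℕ) :
    (step m s).testBit w = true ↔
      s.testBit w = true ∨ ∃ v : Fin n, s.testBit (v : ℕ) = true ∧ (m v).testBit w = true := by
  unfold step
  rw [foldl_testBit]
  simp

lemma walk_of_iter (G : SimpleGraph (Fin n)) (m : Fin n → ℕ)
    (hm : ∀ i j : Fin n, G.Adj i j ↔ (m i).testBit j = true) (s k : ℕ) (w : Fin n)
    (h : ((step m)^[k] s).testBit w = true) :
    ∃ u : Fin n, s.testBit u = true ∧ ∃ p : G.Walk u w, p.length ≤ k := by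
  induction k generalizing w with
  | zero => exact ⟨w, h, SimpleGraph.Walk.nil, le_refl _⟩
  | succ k ih =>
    rw [Function.iterate_succ_apply', step_testBit] at h
    rcases h with h | ⟨v, hv, hvw⟩
    · obtain ⟨u, hu, p, hp⟩ := ih w h
      exact ⟨u, hu, p, by omega⟩
    · obtain ⟨u, hu, p, hp⟩ := ih v hv
      refine ⟨u, hu, p.concat ((hm v w).2 hvw), ?_⟩
      rw [SimpleGraph.Walk.length_concat]
      omega

lemma iter_mono (m : Fin n → ℕ) (s k j : ℕ) (w : ℕ) (hkj : k ≤ j)
    (h : ((step m)^[k] s).testBit w = true) : ((step m)^[j] s).testBit w = true := by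
  induction j, hkj using Nat.le_induction with
  | base => exact h
  | succ j _ ih =>
    rw [Function.iterate_succ_apply', step_testBit]
    exact Or.inl ih

lemma iter_of_walk (G : SimpleGraph (Fin n)) (m : Fin n → ℕ)
    (hm : ∀ i j : Fin n, G.Adj i j ↔ (m i).testBit j = true) {u w : Fin n} (p : G.Walk u w)
    (s : ℕ) (hs : s.testBit u = true) : ((step m)^[p.length] s).testBit w = true := by
  induction p generalizing s with
  | nil => exact hs
  | @cons u v w h p ih =>
    rw [SimpleGraph.Walk.length_cons, Function.iterate_succ_apply]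
    apply ih
    rw [step_testBit]
    exact Or.inr ⟨u, hs, (hm u v).1 h⟩

theorem diam_of (hn : 0 < n) (G : SimpleGraph (Fin n)) (m : Fin n → ℕ)
    (hm : ∀ i j : Fin n, G.Adj i j ↔ (m i).testBit j = true) (D : ℕ)
    (h1 : ∀ u w : Fin n, ((step m)^[D + 1] (2 ^ (u : ℕ))).testBit w = true)
    (h2 : ∃ u w : Fin n, ((step m)^[D] (2 ^ (u : ℕ))).testBit w = false) :
    G.Connected ∧ G.diam = D + 1 := by
  have hself : ∀ u v : Fin n, (2 ^ (u : ℕ)).testBit (v : ℕ) = true ↔ u = v := by
    intro u v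
    rw [Nat.testBit_two_pow, decide_eq_true_eq]
    exact ⟨fun h => Fin.ext h, fun h => by rw [h]⟩
  have hw : ∀ u w : Fin n, ∃ p : G.Walk u w, p.length ≤ D + 1 := by
    intro u w
    obtain ⟨u', hu', p, hp⟩ := walk_of_iter G m hm _ _ w (h1 u w)
    rw [hself] at hu'
    subst hu'
    exact ⟨p, hp⟩
  have : Nonempty (Fin n) := ⟨⟨0, hn⟩⟩
  have hc : G.Connected := ⟨fun u w => ⟨(hw u w).choose⟩⟩
  refine ⟨hc, ?_⟩
  have hle : G.ediam ≤ ((D + 1 : ℕ) : ℕ∞) := by
    rw [SimpleGraph.ediam_le_iff]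
    intro u v
    obtain ⟨p, hp⟩ := hw u v
    exact (SimpleGraph.edist_le p).trans (by exact_mod_cast hp)
  have hne : G.ediam ≠ ⊤ := ne_top_of_le_ne_top (ENat.natCast_ne_top _) hle
  apply le_antisymm
  · unfold SimpleGraph.diam
    exact ENat.toNat_le_of_le_natCast hle
  · obtain ⟨u, w, huw⟩ := h2
    have hd : D + 1 ≤ G.dist u w := by
      by_contra hcon
      obtain ⟨p, hp⟩ := (hc.preconnected u w).exists_walk_length_eq_dist
      have h3 := iter_of_walk G m hm p (2 ^ (u : ℕ)) ((hself u u).2 rfl)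
      have h4 := iter_mono m (2 ^ (u : ℕ)) _ D w (by omega) h3
      rw [huw] at h4
      exact Bool.false_ne_true h4
    exact hd.trans (SimpleGraph.dist_le_diam hne)

lemma ncard_of (a : Fin n → Fin n → Bool) (hs : ∀ i j, a i j = a j i) (hi : ∀ i, a i i = false)
    (d : ℕ) (hreg : ∀ i, (∑ j, if a i j then 1 else 0) = d) (v : Fin n) :
    ((ofBool a hs hi).neighborSet v).ncard = d := by
  have h : (ofBool a hs hi).neighborSet v
      = ((Finset.univ.filter (fun w => a v w = true) : Finset (Fin n)) : Set (Fin n)) := by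
    ext w
    simp only [SimpleGraph.mem_neighborSet, Finset.coe_filter, Finset.mem_univ, true_and,
      Set.mem_ofPred_eq]
    exact Iff.rfl
  rw [h, Set.ncard_coe_finset, Finset.card_filter]
  exact hreg v

/-- A closed walk through three vertices. -/
lemma girth_three (G : SimpleGraph (Fin n)) (x y z : Fin n) (hxy : G.Adj x y) (hyz : G.Adj y z)
    (hzx : G.Adj z x) : G.girth = 3 := by
  have hc : ∃ (u : Fin n) (w : G.Walk u u), w.IsCycle ∧ w.length = 3 := by
    rw [← SimpleGraph.is3Clique_iff_exists_cycle_length_three]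
    exact ⟨{x, y, z}, SimpleGraph.is3Clique_triple_iff.2 ⟨hxy, hzx.symm, hyz⟩⟩
  obtain ⟨u, w, hw, hl⟩ := hc
  apply le_antisymm
  · rw [← hl]
    exact G.girth_le_length hw
  · exact G.three_le_girth (fun h => h w hw)

end graph

end Pool.Agent.Q260.DM
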