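import Pool.Agent.Q260.DM.Defs

/-! The 5-regular graph on 22 vertices of diameter 4 with a triangle. -/

namespace Pool.Agent.Q260.DM.G22

open Finset

section psd

variable {n : ℕ}

lemma dd_nonneg (R : Fin n → Fin n → ℤ) (hsym : ∀ i j, R i j = R j i)
    (hdd : ∀ i, ∑ j, (if j = i then 0 else |R i j|) ≤ R i i) (y : Fin n → ℝ) :
    0 ≤ ∑ i, ∑ j, (R i j : ℝ) * (y i * y j) := by
  set T : Fin n → Fin n → ℝ := fun i j => if j = i then 0 else |(R i j : ℝ)| with hT
  have hTs : ∀ i j, T i j = T j i := by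
    intro i j
    by_cases h : j = i
    · simp [hT, h]
    · have h' : ¬ i = j := fun e => h e.symm
      simp only [hT, if_neg h, if_neg h', hsym i j]
  have h1 : ∀ i j, (if j = i then (R i i : ℝ) * y i ^ 2 else 0) - T i j * (y i ^ 2 + y j ^ 2) / 2
      ≤ (R i j : ℝ) * (y i * y j) := by
    intro i j
    by_cases h : j = i
    · subst h
      simp only [hT, if_true, zero_mul, zero_div, sub_zero]
      exact le_of_eq (by ring)
    · simp only [hT, if_neg h]
      have h2 : |(R i j : ℝ) * (y i * y j)| ≤ |(R i j : ℝ)| * ((y i ^ 2 + y j ^ 2) / 2) := by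
        rw [abs_mul]
        apply mul_le_mul_of_nonneg_left _ (abs_nonneg _)
        rw [abs_mul]
        nlinarith [sq_nonneg (|y i| - |y j|), sq_abs (y i), sq_abs (y j)]
      have h3 := neg_abs_le ((R i j : ℝ) * (y i * y j))
      linarith
  have h4 : ∑ i, ∑ j, ((if j = i then (R i i : ℝ) * y i ^ 2 else 0)
      - T i j * (y i ^ 2 + y j ^ 2) / 2) ≤ ∑ i, ∑ j, (R i j : ℝ) * (y i * y j) :=
    Finset.sum_le_sum (fun i _ => Finset.sum_le_sum (fun j _ => h1 i j))
  refine le_trans ?_ h4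
  have h5 : ∑ i, ∑ j, ((if j = i then (R i i : ℝ) * y i ^ 2 else 0)
      - T i j * (y i ^ 2 + y j ^ 2) / 2)
      = ∑ i, (R i i : ℝ) * y i ^ 2 - (∑ i, ∑ j, T i j * y i ^ 2 + ∑ i, ∑ j, T i j * y j ^ 2) / 2 := by
    rw [← Finset.sum_add_distrib, Finset.sum_div, ← Finset.sum_sub_distrib]
    apply Finset.sum_congr rfl
    intro i _
    rw [Finset.sum_sub_distrib, Finset.sum_ite_eq' Finset.univ i, if_pos (Finset.mem_univ i),
      ← Finset.sum_add_distrib, Finset.sum_div]
    congr 1
    apply Finset.sum_congr rfl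
    intro j _
    ring
  have h6 : ∑ i, ∑ j, T i j * y j ^ 2 = ∑ i, ∑ j, T i j * y i ^ 2 := by
    rw [Finset.sum_comm]
    apply Finset.sum_congr rfl
    intro i _
    apply Finset.sum_congr rfl
    intro j _
    rw [hTs]
  rw [h5, h6]
  have h7 : ∑ i, (R i i : ℝ) * y i ^ 2
      - (∑ i, ∑ j, T i j * y i ^ 2 + ∑ i, ∑ j, T i j * y i ^ 2) / 2
      = ∑ i, ((R i i : ℝ) - ∑ j, T i j) * y i ^ 2 := by
    rw [add_self_div_two, ← Finset.sum_sub_distrib]
    apply Finset.sum_congr rfl
    intro i _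
    rw [sub_mul, Finset.sum_mul]
  rw [h7]
  apply Finset.sum_nonneg
  intro i _
  apply mul_nonneg _ (sq_nonneg _)
  have h8 : ((∑ j, (if j = i then 0 else |R i j|) : ℤ) : ℝ) ≤ (R i i : ℝ) := by
    exact_mod_cast hdd i
  have h9 : ((∑ j, (if j = i then 0 else |R i j|) : ℤ) : ℝ) = ∑ j, T i j := by
    rw [Int.cast_sum]
    apply Finset.sum_congr rfl
    intro j _
    by_cases h : j = i
    · simp [hT, h]
    · simp [hT, h]
  rw [← h9]
  linarith

lemma gram_nonneg (L : Fin n → Fin n → ℤ) (y : Fin n → ℝ) :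
    0 ≤ ∑ i, ∑ j, ((∑ k, L i k * L j k : ℤ) : ℝ) * (y i * y j) := by
  have h : ∑ i, ∑ j, ((∑ k, L i k * L j k : ℤ) : ℝ) * (y i * y j)
      = ∑ k, (∑ i, (L i k : ℝ) * y i) ^ 2 := by
    have e1 : ∀ i j, ((∑ k, L i k * L j k : ℤ) : ℝ) * (y i * y j)
        = ∑ k, ((L i k : ℝ) * y i) * ((L j k : ℝ) * y j) := by
      intro i j
      rw [Int.cast_sum, Finset.sum_mul]
      apply Finset.sum_congr rfl
      intro k _
      push_cast
      ring
    simp_rw [e1]
    have e2 : ∀ i, ∑ j, ∑ k, ((L i k : ℝ) * y i) * ((L j k : ℝ) * y j)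
        = ∑ k, ∑ j, ((L i k : ℝ) * y i) * ((L j k : ℝ) * y j) := fun i => Finset.sum_comm
    simp_rw [e2]
    rw [Finset.sum_comm]
    apply Finset.sum_congr rfl
    intro k _
    rw [sq, Finset.sum_mul]
    apply Finset.sum_congr rfl
    intro i _
    rw [Finset.mul_sum]
  rw [h]
  exact Finset.sum_nonneg (fun k _ => sq_nonneg _)

theorem psd_of (M L : Fin n → Fin n → ℤ) (hsym : ∀ i j, M i j = M j i)
    (hdd : ∀ i, ∑ j, (if j = i then 0 else |M i j - ∑ k, L i k * L j k|)
      ≤ M i i - ∑ k, L i k * L i k) (y : Fin n → ℝ) :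
    0 ≤ ∑ i, ∑ j, (M i j : ℝ) * (y i * y j) := by
  have h1 := gram_nonneg L y
  have h2 := dd_nonneg (fun i j => M i j - ∑ k, L i k * L j k) (by
    intro i j
    rw [hsym i j]
    congr 1
    apply Finset.sum_congr rfl
    intro k _
    ring) hdd y
  have h3 : ∑ i, ∑ j, (M i j : ℝ) * (y i * y j)
      = ∑ i, ∑ j, ((∑ k, L i k * L j k : ℤ) : ℝ) * (y i * y j)
        + ∑ i, ∑ j, ((M i j - ∑ k, L i k * L j k : ℤ) : ℝ) * (y i * y j) := by
    rw [← Finset.sum_add_distrib]
    apply Finset.sum_congr rfl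
    intro i _
    rw [← Finset.sum_add_distrib]
    apply Finset.sum_congr rfl
    intro j _
    push_cast
    ring
  rw [h3]
  exact add_nonneg h1 h2

end psd

/-- Bit masks of the neighbourhoods. -/
def ml : List ℕ := [62, 307201, 983041, 184321, 3686401, 3219457, 3968, 1105984, 2441280, 1839168, 2240576, 753728, 67082, 525474, 262552, 2099338, 6436, 1051660, 17158, 10772, 131760, 34096]

def m (i : Fin 22) : ℕ := ml.getD (i : ℕ) 0

/-- Adjacency. -/
def a (i j : Fin 22) : Bool := (m i).testBit j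

lemma hs : ∀ i j, a i j = a j i := by decide +kernel

lemma hi : ∀ i, a i i = false := by decide +kernel

lemma hreg : ∀ i, (∑ j, if a i j then 1 else 0) = 5 := by decide +kernel

lemma hbfs : ∀ u : Fin 22, (step m)^[3 + 1] (2 ^ (u : ℕ)) = 2 ^ 22 - 1 := by decide +kernel

lemma hfar : ((step m)^[3] (2 ^ ((0 : Fin 22) : ℕ))).testBit (6 : Fin 22) = false := by
  decide +kernel

/-- The graph. -/
def G : SimpleGraph (Fin 22) := ofBool a hs hi

lemma diam : G.Connected ∧ G.diam = 4 := by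
  apply diam_of (by norm_num) G m (fun i j => Iff.rfl) 3
  · intro u w
    rw [hbfs u, Nat.testBit_two_pow_sub_one]
    exact decide_eq_true w.isLt
  · exact ⟨0, 6, hfar⟩

def e (i : Fin 22) : ℤ := if i = 0 then 1 else if i = 6 then -1 else 0

def w (i : Fin 22) : ℤ := if i = 0 then 0 else if (i : ℕ) ≤ 5 then 1 else if i = 6 then 0 else
  if (i : ℕ) ≤ 11 then -1 else 0

def ll : List (List ℤ) := [
  [2726],
  [-275, 1832],
  [-275, 641, 1716],
  [-275, 641, 445, 1657],
  [-275, 641, 445, 341, 1622],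
  [-275, 641, 445, 341, 277, 1598],
  [-1743, -125, -87, -67, -54, -46, 2088],
  [92, -396, -275, -211, -171, -144, -332, 1728],
  [92, -396, -275, -211, -171, -144, -332, 466, 1664],
  [92, -396, -275, -211, -171, -144, -332, 466, 353, 1626],
  [92, -396, -275, -211, -171, -144, -332, 466, 353, 285, 1601],
  [92, -396, -275, -211, -171, -144, -332, 466, 353, 285, 239, 1583],
  [92, -396, 308, -367, 319, 268, 188, 143, 109, -527, -442, 252, 1122],
  [92, -396, 308, 236, 192, -464, 188, -435, 271, 218, -442, 252, -5, 1122],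
  [92, 150, 104, -523, -425, 268, 188, -435, -330, 349, 292, 252, 404, 406, 964],
  [92, -396, 308, -367, 319, 268, 188, -435, 271, 218, 183, -474, -5, -5, -2, 1122],
  [92, 150, -479, 236, 192, -464, 188, 143, -492, 218, 183, -474, -79, 404, 333, 406, 902],
  [92, 150, -479, -367, 319, 268, 188, 143, 109, 88, -551, -474, -5, 404, 302, -3, -298, 957],
  [92, -396, -275, 393, 319, 268, 188, 143, -492, -397, 292, 252, -5, 404, -735, 405, -98, 506, 354],
  [92, 150, -479, 236, -425, 268, 188, 143, 109, -527, 183, -474, 404, -77, 333, 406, -242, -150, 453, 726],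
  [92, 150, 104, 80, -552, -464, 188, -435, 271, -397, 292, 252, 404, -3, -174, 406, 421, 98, 442, -495, 523],
  [92, 150, 104, 80, -552, -464, 188, 143, -492, 218, -442, 252, 404, -3, -174, -77, 129, 572, 236, 536, -223, 567]]

def L (i j : Fin 22) : ℤ := (ll.getD (i : ℕ) []).getD (j : ℕ) 0

def M (i j : Fin 22) : ℤ := (if i = j then 2200000 else 0) - (if a i j then 1000000 else 0)
  + 250000 + 5000000 * e i * e j + 1000000 * w i * w j

lemma hMs : ∀ i j, M i j = M j i := by decide +kernel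

lemma hMdd : ∀ i, ∑ j, (if j = i then 0 else |M i j - ∑ k, L i k * L j k|)
      ≤ M i i - ∑ k, L i k * L i k := by decide +kernel

/-- `A e = w`. -/
lemma hAe : ∀ i, (∑ j, if a i j then e j else 0) = w i := by decide +kernel

/-- `A w = 5 e`. -/
lemma hAw : ∀ i, (∑ j, if a i j then w j else 0) = 5 * e i := by decide +kernel

end Pool.Agent.Q260.DM.G22
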