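import Pool.Agent.Q260.DM.Defs

/-! The 4-regular graph on 34 vertices of diameter 5 and girth 4. -/

namespace Pool.Agent.Q260.DM.G34

open Finset

/-- Bit masks of the neighbourhoods. -/
def ml : List ℕ := [1966080, 8640397312, 310509568, 5373034496, 340000768, 2290352128, 3238264832, 9731309568, 4698144768, 2718433280, 621805568, 4841275392, 8729395200, 31457280, 236978176, 1881145344, 15034482688, 15, 113, 897, 7169, 122880, 12312, 10276, 9282, 16902, 17552, 20768, 33044, 36352, 32968, 66144, 67848, 69762]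

def m (i : Fin 34) : ℕ := ml.getD (i : ℕ) 0

/-- Adjacency. -/
def a (i j : Fin 34) : Bool := (m i).testBit j

lemma hs : ∀ i j, a i j = a j i := by decide +kernel

lemma hi : ∀ i, a i i = false := by decide +kernel

lemma hreg : ∀ i, (∑ j, if a i j then 1 else 0) = 4 := by decide +kernel

lemma hbfs : ∀ u : Fin 34, (step m)^[4 + 1] (2 ^ (u : ℕ)) = 2 ^ 34 - 1 := by decide +kernel

lemma hfar : ((step m)^[4] (2 ^ ((0 : Fin 34) : ℕ))).testBit (21 : Fin 34) = false := by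
  decide +kernel

/-- The graph. -/
def G : SimpleGraph (Fin 34) := ofBool a hs hi

lemma diam : G.Connected ∧ G.diam = 5 := by
  apply diam_of (by norm_num) G m (fun i j => Iff.rfl) 4
  · intro u w
    rw [hbfs u, Nat.testBit_two_pow_sub_one]
    exact decide_eq_true w.isLt
  · exact ⟨0, 21, hfar⟩

/-- The biadjacency matrix. -/
def N (i j : Fin 17) : ℤ := if a (Fin.castAdd 17 i) (Fin.natAdd 17 j) then 1 else 0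

def bl : List (List ℤ) := [
  [4, 1, 1, 1, 1, 1, 1, 1, 1, 1, 1, 1, 1, 0, 0, 0, 0],
  [1, 4, 2, 1, 0, 0, 1, 1, 0, 1, 1, 0, 1, 1, 1, 0, 1],
  [1, 2, 4, 1, 1, 1, 0, 0, 1, 1, 0, 1, 0, 1, 1, 1, 0],
  [1, 1, 1, 4, 1, 0, 1, 1, 1, 0, 0, 1, 1, 1, 0, 1, 1],
  [1, 0, 1, 1, 4, 1, 1, 1, 1, 0, 1, 0, 1, 1, 1, 1, 0],
  [1, 0, 1, 0, 1, 4, 2, 0, 1, 1, 0, 1, 1, 1, 1, 0, 1],
  [1, 1, 0, 1, 1, 2, 4, 1, 0, 1, 1, 0, 0, 1, 0, 1, 1],
  [1, 1, 0, 1, 1, 0, 1, 4, 1, 1, 1, 0, 1, 0, 1, 1, 1],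
  [1, 0, 1, 1, 1, 1, 0, 1, 4, 1, 0, 1, 1, 0, 1, 1, 1],
  [1, 1, 1, 0, 0, 1, 1, 1, 1, 4, 1, 1, 0, 0, 1, 1, 1],
  [1, 1, 0, 0, 1, 0, 1, 1, 0, 1, 4, 2, 1, 1, 1, 1, 0],
  [1, 0, 1, 1, 0, 1, 0, 0, 1, 1, 2, 4, 1, 1, 0, 1, 1],
  [1, 1, 0, 1, 1, 1, 0, 1, 1, 0, 1, 1, 4, 1, 1, 0, 1],
  [0, 1, 1, 1, 1, 1, 1, 0, 0, 0, 1, 1, 1, 4, 1, 1, 1],
  [0, 1, 1, 0, 1, 1, 0, 1, 1, 1, 1, 0, 1, 1, 4, 1, 1],
  [0, 0, 1, 1, 1, 0, 1, 1, 1, 1, 1, 1, 0, 1, 1, 4, 1],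
  [0, 1, 0, 1, 0, 1, 1, 1, 1, 1, 0, 1, 1, 1, 1, 1, 4]]

def cl : List (List ℤ) := [
  [28, 16, 16, 16, 16, 16, 16, 16, 16, 16, 16, 16, 16, 9, 9, 9, 9],
  [16, 30, 21, 16, 10, 10, 15, 16, 9, 16, 15, 10, 15, 16, 16, 10, 15],
  [16, 21, 30, 16, 15, 15, 10, 9, 16, 16, 10, 15, 10, 16, 16, 15, 10],
  [16, 16, 16, 28, 16, 10, 15, 16, 16, 9, 10, 15, 16, 16, 9, 16, 16],
  [16, 10, 15, 16, 28, 16, 16, 16, 16, 9, 15, 10, 16, 16, 16, 16, 9],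
  [16, 10, 15, 10, 16, 30, 21, 9, 16, 16, 10, 15, 15, 16, 15, 10, 16],
  [16, 15, 10, 15, 16, 21, 30, 16, 9, 16, 15, 10, 10, 16, 10, 15, 16],
  [16, 16, 9, 16, 16, 9, 16, 28, 16, 16, 16, 9, 16, 9, 16, 16, 16],
  [16, 9, 16, 16, 16, 16, 9, 16, 28, 16, 9, 16, 16, 9, 16, 16, 16],
  [16, 16, 16, 9, 9, 16, 16, 16, 16, 28, 16, 16, 9, 9, 16, 16, 16],
  [16, 15, 10, 10, 15, 10, 15, 16, 9, 16, 30, 21, 16, 16, 15, 16, 10],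
  [16, 10, 15, 15, 10, 15, 10, 9, 16, 16, 21, 30, 16, 16, 10, 16, 15],
  [16, 15, 10, 16, 16, 15, 10, 16, 16, 9, 16, 16, 28, 16, 16, 9, 16],
  [9, 16, 16, 16, 16, 16, 16, 9, 9, 9, 16, 16, 16, 28, 16, 16, 16],
  [9, 16, 16, 9, 16, 15, 10, 16, 16, 16, 15, 10, 16, 16, 28, 16, 16],
  [9, 10, 15, 16, 16, 10, 15, 16, 16, 16, 16, 16, 9, 16, 16, 28, 16],
  [9, 15, 10, 16, 9, 16, 16, 16, 16, 16, 10, 15, 16, 16, 16, 16, 28]]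

def B (i j : Fin 17) : ℤ := (bl.getD (i : ℕ) []).getD (j : ℕ) 0

def C (i j : Fin 17) : ℤ := (cl.getD (i : ℕ) []).getD (j : ℕ) 0

def one (i j : Fin 17) : ℤ := if i = j then 1 else 0

lemma hB : ∀ i k, ∑ l, N i l * N k l = B i k := by decide +kernel

lemma hC : ∀ i k, ∑ l, B i l * B l k = C i k := by decide +kernel

lemma hE : ∀ i k, ∑ l, (C i l - 7 * B i l + 9 * one i l) * (C l k - 5 * B l k + one l k)
    = 1593 := by decide +kernel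

lemma hrow : ∀ k, ∑ l, B l k = 16 := by decide +kernel

lemma side1 : ∀ i j : Fin 17, a (Fin.castAdd 17 i) (Fin.castAdd 17 j) = false := by decide +kernel

lemma side2 : ∀ i j : Fin 17, a (Fin.natAdd 17 i) (Fin.natAdd 17 j) = false := by decide +kernel

def al : List ℤ := [4, 0, 0, 0, 0, 0, 0, 0, 0, 0, 0, 0, 0, -1, -1, -1, -1, 1, 1, 1, 1, -4, 0, 0, 0, 0, 0, 0, 0, 0, 0, 0, 0, 0]

def be : List ℤ := [0, 1, 1, 1, 1, 1, 1, 1, 1, 1, 1, 1, 1, -3, -3, -3, -3, 3, 3, 3, 3, 0, -1, -1, -1, -1, -1, -1, -1, -1, -1, -1, -1, -1]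

def α (i : Fin 34) : ℤ := al.getD (i : ℕ) 0

def β (i : Fin 34) : ℤ := be.getD (i : ℕ) 0

lemma hα : ∀ i, (∑ j, if a i j then α j else 0) = α i + β i := by decide +kernel

lemma hβ : ∀ i, (∑ j, if a i j then β j else 0) = 3 * α i := by decide +kernel

end Pool.Agent.Q260.DM.G34
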